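import Pool.Agent.H88.War.Main
import Pool.Agent.H88.War.Obst

set_option autoImplicit false

/-!
# Sums of `2 k + 1` products of `k` integers of one short interval

A `k`-th power is a product of `k` equal integers. For `k ≥ 2` every large integer is a sum of
`2 k + 1` (even of `2 k - 1`, and of any larger number `s`) products of `k` integers which all
belong to one interval `[x, x + C √x]`. The length of the interval is best possible, with any
number `s` of summands: for some `c = c(k, s) > 0` infinitely many integers are not sums of `s`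
products of `k` integers of an interval `[x, x + c √x]`. (For products of equal integers this is
the obstruction of Wright in Waring's problem with almost equal variables.)

Idea of the proof. The summands are `b ^ (k - 1) y` with bases `b = x + i` and `b = x + a + i`,
`0 ≤ i < k`, `a` about `√x`. The iterated differences of the numbers `b ^ (k - 1)` with respect to
`i` and to the two values of the shift have the sizes `a ^ (2 k - 2), a ^ (2 k - 3), …, a, 1`, so
that the greedy algorithm writes each number `O(x ^ (k - 1))` as a combination of the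
`b ^ (k - 1)` with coefficients `O(√x)`.
-/

namespace Pool.Agent.Results.MP_efcac8_nt.AlmostEqualProducts

open Finset

/-- `n` is a sum of `s` products of `k` integers of the interval `[x, x + C √x]`, for some
positive integer `x` -/
def IsSum (k s : ℕ) (C : ℝ) (n : ℕ) : Prop :=
  ∃ (x : ℕ) (a : Fin s → Fin k → ℕ), 1 ≤ x ∧ (∀ i j, (a i j : ℝ) ≤ C * √x) ∧
    n = ∑ i, ∏ j, (x + a i j)

lemma exists_sum (k s : ℕ) (hk : 2 ≤ k) (hs : 2 * k - 1 ≤ s) :
    ∃ (C : ℝ) (N : ℕ), ∀ n, N ≤ n → IsSum k s C n := by
  obtain ⟨d, rfl⟩ : ∃ d, k = d + 1 := ⟨k - 1, by omega⟩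
  obtain ⟨B, K, N, h⟩ := Pool.Agent.H88.War.main d 2 s (le_refl 2) (by omega)
  refine ⟨(2 * B + 2) * √(B + 1), N, fun n hn => ?_⟩
  obtain ⟨a, x, hBa, ha, hda, hax, -, b, y, hb, hy, -, hsum⟩ := h n hn
  rw [show 2 - 1 = 1 from rfl, pow_one] at hb
  have hx0 : B * a + a ≤ x := by
    calc B * a + a = (B + 1) * a := by ring
      _ ≤ x := hBa
  set x0 : ℕ := x - B * a with hx0def
  have hx1 : x0 + B * a = x := by omega
  have hxa : a ≤ x0 := by omega
  -- the factors
  have hyi : ∀ i, x0 ≤ y i ∧ y i ≤ x0 + (2 * B + 2) * a := by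
    intro i
    obtain ⟨-, h2⟩ := hy i
    obtain ⟨h3, h4⟩ := abs_le.1 h2
    obtain ⟨h5, h6⟩ := hb i
    have h7 : (b i : ℤ) ≤ x + d + a := by exact_mod_cast h6
    have h8 : (x : ℤ) ≤ b i := by exact_mod_cast h5
    have h9 : (x : ℤ) = x0 + B * a := by exact_mod_cast hx1.symm
    have h10 : (d : ℤ) ≤ a := by exact_mod_cast hda
    constructor
    · have : (x0 : ℤ) ≤ y i := by linarith
      exact_mod_cast this
    · have : (y i : ℤ) ≤ x0 + (2 * B + 2) * a := by linarith
      exact_mod_cast this
  have hbi : ∀ i, x0 ≤ b i ∧ b i ≤ x0 + (2 * B + 2) * a := by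
    intro i
    obtain ⟨h5, h6⟩ := hb i
    constructor
    · omega
    · have : x0 + (2 * B + 2) * a = x0 + B * a + a + a + B * a := by ring
      omega
  have hsize : ∀ u : ℕ, u ≤ (2 * B + 2) * a → (u : ℝ) ≤ (2 * B + 2) * √(B + 1) * √x0 := by
    intro u hu
    have h1 : a ^ 2 ≤ (B + 1) * x0 := by
      have h2 : x ≤ (B + 1) * x0 := by
        calc x = x0 + B * a := hx1.symm
          _ ≤ x0 + B * x0 := Nat.add_le_add_left (Nat.mul_le_mul_left B hxa) _
          _ = (B + 1) * x0 := by ring
      exact hax.trans h2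
    have h2 : (a : ℝ) ≤ √((B + 1) * x0) := by
      apply Real.le_sqrt_of_sq_le
      exact_mod_cast h1
    rw [Real.sqrt_mul (by positivity)] at h2
    calc (u : ℝ) ≤ (2 * B + 2) * a := by exact_mod_cast hu
      _ ≤ (2 * B + 2) * (√(B + 1) * √x0) := mul_le_mul_of_nonneg_left h2 (by positivity)
      _ = (2 * B + 2) * √(B + 1) * √x0 := by ring
  refine ⟨x0, fun i j => if j = 0 then y i - x0 else b i - x0, by omega, ?_, ?_⟩
  · intro i j
    apply hsize
    have h1 := hyi i
    have h2 := hbi i
    show (if j = 0 then y i - x0 else b i - x0) ≤ _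
    split_ifs <;> omega
  · rw [← hsum, ← Fin.sum_univ_eq_sum_range (fun i => b i ^ d * y i) s]
    apply Finset.sum_congr rfl
    intro i _
    rw [Fin.prod_univ_succ]
    have h1 := hyi i
    have h2 := hbi i
    have h3 : ∀ j : Fin d, x0 + (if j.succ = 0 then y i - x0 else b i - x0) = b i := by
      intro j
      rw [if_neg (Fin.succ_ne_zero j)]
      omega
    simp only [h3, if_true, Finset.prod_const, Finset.card_univ, Fintype.card_fin]
    have h4 : x0 + (y i - x0) = y i := by omega
    rw [h4, mul_comm]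

theorem result (k s : ℕ) (hk : 2 ≤ k) (hs : 1 ≤ s) :
    (2 * k - 1 ≤ s → ∃ (C : ℝ) (N : ℕ), ∀ n, N ≤ n → IsSum k s C n) ∧
    ∃ c : ℝ, 0 < c ∧ ∀ N : ℕ, ∃ n, N ≤ n ∧ ¬ IsSum k s c n :=
  ⟨exists_sum k s hk, Pool.Agent.H88.War.obstruction k s hk hs⟩

end Pool.Agent.Results.MP_efcac8_nt.AlmostEqualProducts
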