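import Mathlib
import Pool.Agent.H16.WD.Digits
import Pool.Agent.H16.WD.TwoPowers

set_option autoImplicit false

/-!
# Sums of `2 k + 1` positive `k`-th powers with prescribed digits outside any given block

Let `k ≥ 2`, and let the base `b` be prime to `k` such that every residue class modulo `b` contains a sum of two `k`-th
powers. For every large `n` and every block of consecutive places which contains the `e ^ (-2)`-th part (`13.6` percent) of
the digits of `n` in base `b`, wherever it is situated, there is a sum of exactly `2 k + 1` positive `k`-th powers which has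
the same digits as `n` at all places outside the block. The condition holds for all primes `b > k ^ 4` (Jacobi sums), for
`b = 2` if `k` is odd, and for `b = 10` if `k` is prime to `10`. More generally `n` is approximated by these sums
simultaneously in the real and in the `b`-adic metric.

Proof. A greedy algorithm at the real place and at the primes dividing `b` at the same time: `w ≡ 1` modulo `b` is a `k`-th
power in `ℤ_p` for all `p ∣ b` (Hensel); if `b ^ (k a)` is a little smaller than `w ^ (1 / k)` then a `y` near `w ^ (1 / k)`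
can be chosen with `w = y ^ k + b ^ (k a) w'`, `w' ≡ 1`, `w' ≍ w ^ (1 - 1 / k)`. After `2 k - 1` steps `w` is replaced by
`b ^ (k A) w'` with `w' ≍ w ^ ((1 - 1 / k) ^ (2 k - 1))`, and `b ^ (k A)` can be prescribed up to a constant factor. The other
two powers are used at the beginning, to get a number `≡ 1` modulo `b`.
-/

open Finset

namespace Pool.Agent.Results.MP_efcac8_nt.BlocksOfDigits

/-- `S` is a sum of exactly `N` positive `k`-th powers -/
def SumOfPositivePowers (k N S : ℕ) : Prop := ∃ x : Fin N → ℕ, (∀ i, 0 < x i) ∧ S = ∑ i, x i ^ k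

/-- `S` and `n` have the same digits in base `b`, except possibly at the `D` places `M, M + 1, …, M + D - 1` -/
def SameDigitsOutside (b M D S n : ℕ) : Prop :=
  ∀ j : ℕ, j < M ∨ M + D ≤ j → (Nat.digits b S).getD j 0 = (Nat.digits b n).getD j 0

/-- the base `b ≥ 2` is prime to `k`, and every residue class modulo `b` contains a sum of two `k`-th powers -/
def TwoPowersSuffice (k b : ℕ) : Prop := 2 ≤ b ∧ k.Coprime b ∧ ∀ n : ℕ, ∃ x y : ℕ, x ^ k + y ^ k ≡ n [MOD b]

theorem result :
    (∀ k b : ℕ, 2 ≤ k → TwoPowersSuffice k b →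
      -- blocks containing the `e ^ (-2)`-th part of the digits
      (∃ c : ℕ, ∀ n M D : ℕ, M + D ≤ (Nat.digits b n).length → Real.exp (-2) * (Nat.digits b n).length + c ≤ D →
        ∃ S : ℕ, SumOfPositivePowers k (2 * k + 1) S ∧ SameDigitsOutside b M D S n) ∧
      -- simultaneous approximation
      ∃ C : ℝ, 0 < C ∧ ∀ n M : ℕ, C * (b : ℝ) ^ M ≤ (n : ℝ) ^ (1 - (1 - 1 / (k : ℝ)) ^ (2 * k - 1)) →
        ∃ S : ℕ, SumOfPositivePowers k (2 * k + 1) S ∧ S < n ∧ S ≡ n [MOD b ^ M] ∧
          (n : ℝ) - S ≤ C * (b : ℝ) ^ M * (n : ℝ) ^ ((1 - 1 / (k : ℝ)) ^ (2 * k - 1))) ∧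
    -- the bases
    (∀ k p : ℕ, 2 ≤ k → p.Prime → k ^ 4 < p → TwoPowersSuffice k p) ∧
    (∀ k : ℕ, Odd k → TwoPowersSuffice k 2) ∧ (∀ k : ℕ, k.Coprime 10 → TwoPowersSuffice k 10) := by
  refine ⟨?_, ?_, ?_, ?_⟩
  · rintro k b hk ⟨hb, hcop, h2⟩
    have hc : Nat.gcd k (b ^ (0 + 1)) ∣ b ^ 0 := by
      rw [zero_add, pow_one, pow_zero]
      exact (Nat.dvd_one).2 hcop
    have hloc : ∀ n : ℕ, ∃ ρ : Fin 2 → ℕ, ∑ i, ρ i ^ k ≡ n [MOD b ^ (2 * 0 + 1)] := by
      intro n
      obtain ⟨x, y, h⟩ := h2 n
      refine ⟨![x, y], ?_⟩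
      rw [Fin.sum_univ_two]
      simpa using h
    have e : 2 * k - 1 + 2 = 2 * k + 1 := by omega
    have hk0 : (0 : ℝ) < k := by exact_mod_cast (by omega : 0 < k)
    refine ⟨?_, ?_⟩
    · obtain ⟨c0, h⟩ := H16.WD.block hk hb hc (by omega) hloc (2 * k - 1)
      rw [e] at h
      have hη : (1 - 1 / (k : ℝ)) ^ (2 * k - 1) ≤ Real.exp (-2) := by
        obtain ⟨m, rfl⟩ : ∃ m : ℕ, k = m + 1 := ⟨k - 1, by omega⟩
        have hm0 : (0 : ℝ) < m := by exact_mod_cast (by omega : 0 < m)
        have e1 : 1 - 1 / (((m + 1 : ℕ) : ℝ)) = (1 + 1 / (m : ℝ))⁻¹ := by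
          push_cast
          field_simp
          ring
        have e2 : 2 * (m + 1) - 1 = 2 * m + 1 := by omega
        rw [e1, e2, inv_pow, Real.exp_neg]
        apply inv_anti₀ (Real.exp_pos _)
        have h3 := Real.le_log_one_add_of_nonneg (x := 1 / (m : ℝ)) (by positivity)
        have h4 : 2 * (1 / (m : ℝ)) / (1 / (m : ℝ) + 2) = 2 / (2 * m + 1) := by
          field_simp
          ring
        rw [h4] at h3
        have h5 : (2 : ℝ) ≤ (2 * m + 1 : ℕ) * Real.log (1 + 1 / (m : ℝ)) := by
          push_cast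
          rw [div_le_iff₀ (by positivity)] at h3
          linarith
        calc Real.exp 2 ≤ Real.exp ((2 * m + 1 : ℕ) * Real.log (1 + 1 / (m : ℝ))) := Real.exp_le_exp.2 h5
          _ = (1 + 1 / (m : ℝ)) ^ (2 * m + 1) := by
              rw [Real.exp_nat_mul, Real.exp_log (by positivity)]
      refine ⟨c0 + 1, fun n M D hMD hD => ?_⟩
      rcases Nat.eq_zero_or_pos n with h0 | h0
      · exfalso
        subst h0
        simp only [Nat.digits_zero, List.length_nil, Nat.le_zero, Nat.add_eq_zero_iff] at hMD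
        rw [hMD.2] at hD
        simp only [Nat.digits_zero, List.length_nil, Nat.cast_zero, mul_zero, zero_add, Nat.cast_add, Nat.cast_one] at hD
        have : (0 : ℝ) ≤ c0 := by positivity
        linarith
      · have h1 : b ^ ((Nat.digits b n).length - 1) ≤ n := by
          have h2 := Nat.base_pow_length_digits_le b n (by omega) h0.ne'
          have h3 : 0 < (Nat.digits b n).length := by
            rw [List.length_pos_iff]
            exact Nat.digits_ne_nil_iff_ne_zero.2 h0.ne'
          have h4 : b ^ (Nat.digits b n).length = b * b ^ ((Nat.digits b n).length - 1) := by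
            rw [← pow_succ']; congr 1; omega
          rw [h4] at h2
          exact Nat.le_of_mul_le_mul_left h2 (by omega)
        have h2 : n < b ^ (Nat.digits b n).length := Nat.lt_base_pow_length_digits (by omega)
        have h5 : (0 : ℝ) ≤ (Nat.digits b n).length := by positivity
        have h6 := mul_le_mul_of_nonneg_right hη h5
        obtain ⟨x, hx, e1, e2⟩ := h n _ M D h1 h2 hMD (by push_cast at hD; linarith)
        exact ⟨_, ⟨x, hx, rfl⟩, H16.WD.digits_eq hb e1 e2⟩
    · obtain ⟨C, hC1, hC⟩ := H16.WD.approx hk hb hc (by omega) hloc (2 * k - 1)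
      rw [e] at hC
      refine ⟨C, by linarith, fun n M hM => ?_⟩
      obtain ⟨x, w, hx, hsum, hwl, hwu⟩ := hC n M hM
      have hb0 : (0 : ℝ) < b := by exact_mod_cast (by omega : 0 < b)
      have hn0 : 0 < n := by
        have hpos : 0 < ∑ i, x i ^ k + b ^ M * w := by
          have h1 : 0 < ∑ i, x i ^ k := by
            apply sum_pos (fun i _ => pow_pos (by have := hx i; omega) _)
            exact ⟨⟨0, by omega⟩, mem_univ _⟩
          omega
        omega
      have hw0 : 0 < w := by
        have h1 : (0 : ℝ) < (n : ℝ) ^ ((1 - 1 / (k : ℝ)) ^ (2 * k - 1)) := by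
          have : (0 : ℝ) < n := by exact_mod_cast hn0
          positivity
        have : (0 : ℝ) < w := by linarith
        exact_mod_cast this
      have hbM : 0 < b ^ M := pow_pos (by omega) _
      refine ⟨∑ i, x i ^ k, ⟨x, hx, rfl⟩, ?_, ?_, ?_⟩
      · have : 0 < b ^ M * w := Nat.mul_pos hbM hw0
        omega
      · rw [hsum]
        simp [Nat.ModEq]
      · have e : (n : ℝ) = ∑ i, (x i : ℝ) ^ k + (b : ℝ) ^ M * w := by exact_mod_cast hsum
        push_cast
        nth_rewrite 1 [e]
        calc _ = (b : ℝ) ^ M * w := by ring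
          _ ≤ (b : ℝ) ^ M * (C * (n : ℝ) ^ ((1 - 1 / (k : ℝ)) ^ (2 * k - 1))) := by gcongr
          _ = _ := by ring
  · intro k p hk hp hkp
    have : Fact p.Prime := ⟨hp⟩
    have h1 : k ≤ k ^ 4 := Nat.le_self_pow (by norm_num) k
    refine ⟨hp.two_le, ?_, fun n => ?_⟩
    · rw [Nat.coprime_comm, Nat.Prime.coprime_iff_not_dvd hp]
      intro h
      have := Nat.le_of_dvd (by omega) h
      omega
    · obtain ⟨x, y, h⟩ := H16.WD.two_powers hk hkp (n : ZMod p)
      refine ⟨x.val, y.val, ?_⟩
      rw [← ZMod.natCast_eq_natCast_iff]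
      push_cast
      rw [ZMod.natCast_zmod_val, ZMod.natCast_zmod_val]
      exact h
  · intro k hk
    refine ⟨le_rfl, hk.coprime_two_right, fun n => ⟨n, 0, ?_⟩⟩
    have hk0 : k ≠ 0 := fun h => by rw [h] at hk; exact absurd hk (by decide)
    rw [zero_pow hk0, add_zero]
    rcases Nat.even_or_odd n with h | h
    · exact (Nat.even_iff.1 (h.pow_of_ne_zero hk0)).trans (Nat.even_iff.1 h).symm
    · exact (Nat.odd_iff.1 h.pow).trans (Nat.odd_iff.1 h).symm
  · intro k hk
    have hk0 : k ≠ 0 := fun h => by rw [h] at hk; exact absurd hk (by decide)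
    refine ⟨by norm_num, hk, fun n => ⟨n ^ k, 0, ?_⟩⟩
    rw [zero_pow hk0, add_zero, ← pow_mul]
    have hodd : k % 2 = 1 := by
      by_contra h
      have h2 : 2 ∣ k := Nat.dvd_of_mod_eq_zero (by omega)
      have := Nat.dvd_gcd h2 (by norm_num : 2 ∣ 10)
      rw [hk] at this
      exact absurd this (by decide)
    have h4 : k * k % 4 = 1 := by
      have h5 : k % 4 = 1 ∨ k % 4 = 3 := by omega
      rcases h5 with h5 | h5 <;> rw [Nat.mul_mod, h5]
    obtain ⟨j, hj⟩ : ∃ j, k * k = 4 * j + 1 := ⟨k * k / 4, by omega⟩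
    rw [hj]
    have hstep : ∀ j : ℕ, ∀ x : ZMod 10, x ^ (4 * j + 1) = x := by
      intro j
      induction j with
      | zero => intro x; simp
      | succ j ih =>
        intro x
        have h5 : ∀ x : ZMod 10, x ^ 5 = x := by decide
        calc x ^ (4 * (j + 1) + 1) = x ^ (4 * j) * x ^ 5 := by rw [← pow_add]; congr 1
          _ = x ^ (4 * j + 1) := by rw [h5, pow_succ]
          _ = x := ih x
    rw [← ZMod.natCast_eq_natCast_iff]
    push_cast
    exact hstep j _

end Pool.Agent.Results.MP_efcac8_nt.BlocksOfDigits
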