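import Pool.Agent.H70.WS.Fin

/-!
# `2 k + 1` nearly equal `k`-th powers: `k + 1` of positive integers and `k` of conjugate algebraic integers

`G (k) ≤ 2 k + 1` says that every large `n` is a sum of `2 k + 1` many `k`-th powers of integers `≥ 0`. Here `k + 1` of
the `2 k + 1` summands are `k`-th powers of positive integers, and the other `k` are the `k`-th powers of the roots of
a monic polynomial of degree `k` with integral coefficients which splits over `ℝ` and modulo an arbitrary given number
`m`, but not necessarily over `ℚ`: these roots are totally positive algebraic integers, with each of them all its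
conjugates occur. Moreover all the `2 k + 1` numbers are nearly equal.

**Theorem.** Let `k` be not of the form `2 ^ a` with `a ≥ 2`.

1. For every `m ≥ 1` there are `C` and `N` such that every `n ≥ N` is
   `a_1 ^ k + ⋯ + a_{k+1} ^ k + x_1 ^ k + ⋯ + x_k ^ k`, where the `a_i` are positive integers, the `x_i` are different
   real numbers, `a_i` and `x_i` are in an interval `[A, A + C √A]`, `A` a positive integer, and `x_1, …, x_k` are the
   roots of a monic polynomial with integral coefficients that splits into linear factors modulo `m`.
2. The length of the interval has the smallest possible order of magnitude, for every number of summands: for `k ≥ 2`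
   and `s ≥ 1` there is `c > 0` such that infinitely many `n` are not of the form `x_1 ^ k + ⋯ + x_s ^ k` with real
   numbers `x_i` in an interval `[A, A + c √A]`, `A > 0`, with an integral sum `x_1 + ⋯ + x_s`.

So, for polynomials of degree `2 k + 1` with `k + 1` rational roots, there is neither an obstruction at the real place
nor one by congruences, and this remains so for nearly equal roots, in an interval of the shortest possible length.

Proof of 1. The integers `a_i ≡ y_i` modulo `m k` are chosen near `(n / (2 k + 1)) ^ (1 / k)`, where `y_1, …, y_{2k+1}`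
are integers with `∑ y_i ^ k ≡ n` modulo `m k` (`Pool.Agent.R500.WB.Loc.two` of the library). For the rest `n'` let
`x_i = A + z_i`, `δ = C √A`, so that `n' = ∑_j (k choose j) A ^ (k - j) p_j`, `p_j = ∑_i z_i ^ j`. Choose the integers
`p_1, p_2, …` (more precisely the coefficients of the polynomial of the `z_i`, in given residue classes modulo `m k`)
one after the other, such that the error of the partial sums is `O(A ^ (k - j))`, with a real representation with
`z_i = θ + i δ` as the model. Then every `p_j` differs from that of the model by `O(A)`, which is `O(δ ^ j / C ^ 2)`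
for `j ≥ 2`; for large `C` the roots remain real. The last coefficient is given by the equation, and by Newton's
identities it is integral and in the right residue class.
-/

set_option autoImplicit false

namespace Pool.Agent.Results.MP_efcac8_nt.ConjugateSummands

open Pool.Agent.H70.WS

theorem result (k : ℕ) (hk : 1 ≤ k) (hk2 : ¬ ∃ a : ℕ, 1 < a ∧ k = 2 ^ a) :
    (∀ m : ℕ, 1 ≤ m → ∃ (C : ℝ) (N : ℕ), ∀ n : ℕ, N ≤ n → Rep k (k + 1) m C n) ∧
    (2 ≤ k → ∀ s : ℕ, 1 ≤ s → ∃ c : ℝ, 0 < c ∧ ∀ N : ℕ, ∃ n : ℕ, N ≤ n ∧
      ∀ (A : ℝ) (x : Fin s → ℝ), 0 < A → (∀ i, A ≤ x i ∧ x i ≤ A + c * √A) → (∃ t : ℤ, ∑ i, x i = t) →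
        ∑ i, x i ^ k ≠ n) := by
  refine ⟨fun m hm => ?_, fun h2 s hs => ?_⟩
  · refine exists_rep hk hm ?_
    have h := R500.WB.Loc.two (q := m * k) hk (fun a ha h => hk2 ⟨a, ha, h⟩) (Nat.mul_pos hm hk)
    rwa [show 2 * k + 1 = k + 1 + k by omega] at h
  · obtain ⟨l, rfl⟩ : ∃ l, k = l + 2 := ⟨k - 2, by omega⟩
    exact optimal s l hs

end Pool.Agent.Results.MP_efcac8_nt.ConjugateSummands
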