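import Pool.Agent.H96.WG.K

/-!
# `2 k` exact `k`-th powers (of primes) and one generic term; `2 k + 1` terms with few generic coefficients;
# arbitrary thick sets and generic terms

`G(k) ≤ 2 k + 1` says that every large integer is a sum of `2 k + 1` many `k`-th powers. Here all but one (or all but a
few) of the terms are exact `k`-th powers `x ^ k`, even with `x` from a prescribed set such as the set of the primes; the
other terms are integral parts `⌊α y ^ c + g y⌋` of powers with a real coefficient `α > 0`, perturbed by an ARBITRARY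
function `g` of a smaller order. The coefficients are outside sets of Hausdorff dimension smaller than one, for which
explicit bounds are given in the case of one coefficient.

Proof. Let `A` be a set with at least `X ^ a` elements up to `X`.

* One generic term: the energy of the sequence `⌊α y ^ c + g y⌋` minus the smooth density is small for the translates by
  the elements of `A`, on average over separated `α`, by the first moments of the numbers of solutions of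
  `|α (y ^ c - z ^ c) + ...| < 1`. Hence, for most `α`, at most `X ^ (2 - a - 1 / c + ε)` integers up to `X` are not a sum
  of an element of `A` and of an `⌊α y ^ c + g y⌋`, and if `B` is another set with at least `X ^ b` elements up to `X`, an
  exceptional integer for `A + B` would give `X ^ b` exceptional integers for `A`.
* Growth: the set of the sums of an element of `A` and of an `⌊α y ^ c + g y⌋` has the exponent `min 1 (a + 1 / c)`, for
  most `α`, by the second moment of the number of representations.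
* One more generic term squares the density of the exceptional set (the method of `MP_570bef_nt.AlmostAllCoefficients`
  of the library, with arbitrary perturbations and integral parts of all the terms).
* The sums of `u` many `k`-th powers of elements of a thick set have the exponent `1 - (1 - 1 / k) ^ u` (diminishing
  ranges).

`dimH`: the Hausdorff dimension (Mathlib).
-/

set_option autoImplicit false

namespace Pool.Agent.Results.MP_efcac8_nt.OneGenericTerm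

open Filter
open scoped ENNReal Topology

/-- `A` has at least `X ^ a` elements up to `X`, for all large `X`. -/
def Many (A : Set ℕ) (a : ℝ) : Prop :=
  ∀ᶠ X : ℝ in atTop, ∃ S : Finset ℕ, (∀ s ∈ S, s ∈ A ∧ (s : ℝ) ≤ X) ∧ X ^ a ≤ S.card

/-- For every `ω < 1` the set `W` has at least `P ^ ω` elements in `[P, C P]`, for some `C` and all large `P`. For instance:
all natural numbers, or all primes. -/
def Dense (W : Set ℕ) : Prop :=
  ∀ ω : ℝ, ω < 1 → ∃ C : ℕ, ∀ᶠ P : ℕ in atTop, ∃ S : Finset ℕ, (∀ x ∈ S, x ∈ W ∧ P ≤ x ∧ x ≤ C * P) ∧ (P : ℝ) ^ ω ≤ S.card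

/-- `P α` holds for all `α > 0` outside a set of Hausdorff dimension smaller than one. -/
def Gen (P : ℝ → Prop) : Prop := ∃ E : Set ℝ, dimH E < 1 ∧ ∀ α : ℝ, 0 < α → α ∉ E → P α

/-- `P (α 0, ..., α (s - 1))` holds for successively generic `α`: for all `α 0 > 0` outside a set of Hausdorff dimension
smaller than one, for all `α 1 > 0` outside a set of Hausdorff dimension smaller than one (which depends on `α 0`), ... -/
def Generic : (s : ℕ) → ((Fin s → ℝ) → Prop) → Prop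
  | 0, P => P Fin.elim0
  | s + 1, P => Gen fun α => Generic s fun β => P (Fin.cons α β)

/-- The sequence `d` has a term in `[X, C X]`, for some `C` and all large `X`. -/
def NoGaps (d : ℕ → ℝ) : Prop := ∃ C : ℝ, 1 ≤ C ∧ ∀ᶠ X : ℝ in atTop, ∃ y : ℕ, 0 < y ∧ X ≤ d y ∧ d y ≤ C * X

/-- `h` is of a smaller order than `d`: for all `ε > 0`, `|h y| ≤ ε |d y|` if `y` is large. -/
def Smaller (h d : ℕ → ℝ) : Prop := ∀ ε : ℝ, 0 < ε → ∀ᶠ y : ℕ in atTop, |h y| ≤ ε * |d y|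

lemma of_generic : ∀ (s : ℕ) {P : (Fin s → ℝ) → Prop}, Pool.Agent.H96.WG.Generic s P → Generic s P
  | 0, _, h => h
  | s + 1, _, h => by
    obtain ⟨E, hE, h1⟩ := h
    exact ⟨E, hE, fun α h2 h3 => of_generic s (h1 α h2 h3)⟩

/-- The following six statements hold.

(1) The natural numbers and the primes are `Dense` sets `W`. Let `k ≥ 2`, `1 ≤ c < e / 2`, let `W` be a `Dense` set and
`g` an ARBITRARY function with `|g y| ≤ C (y + 1) ^ (c - 1)`. For all `α > 0` outside a set of Hausdorff dimension smaller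
than one, every large natural number is a sum of `2 k` many `k`-th powers of elements of `W` and of one term
`⌊α y ^ c + g y⌋`, `y ≥ 1`.

(2) More generally, for all `u`, `v` and `c ≥ 1` the set of the `α > 0` for which not every large natural number is a sum
of `u + v` many `k`-th powers of elements of `W` and of one term `⌊α y ^ c + g y⌋` is contained in a set of Hausdorff
dimension at most `1 + (1 - 1 / k) ^ u + (1 - 1 / k) ^ v - 1 / c`.

(3) Let `k ≥ 3`, `1 ≤ c ≤ 2`. For successively generic `α`, `β 0`, `β 1`, every large natural number is a sum of `2 k + 1`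
terms: `2 k - 2` many `k`-th powers of elements of `W`, `⌊α y ^ c + g y⌋`, `⌊β 0 (z 0) ^ k + h 0 (z 0)⌋` and
`⌊β 1 (z 1) ^ k + h 1 (z 1)⌋`, where the functions `g`, `h 0`, `h 1` with `|g y| ≤ C (y + 1) ^ (c - 1)` and
`|h i y| ≤ C (y + 1) ^ (k - 1)` are ARBITRARY.

(4) Let `k ≥ 2` and `(1 - 1 / k) ^ v < 2 ^ j min (1 / k) ((r + 1) / k - (1 - 1 / k) ^ u)`. For successively generic
`α i`, `i < j + r + 1`, every large natural number is a sum of `u + v` many `k`-th powers of elements of `W` and of the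
`j + r + 1` terms `⌊α i (y i) ^ k + h i (y i)⌋`, where `h i` is ARBITRARY with `|h i y| ≤ C (y + 1) ^ (k - 1)`.
If `k` is large, this holds for `2 k + 1` terms of which only `⌊k / 6⌋` have a generic coefficient: `2 k + 1 - ⌊k / 6⌋`
terms are exact `k`-th powers of elements of `W`.

(5) Let `A` be an ARBITRARY set with at least `X ^ a` elements up to `X`, for large `X`, and let `c ≥ 1`. There is a set
`E` of Hausdorff dimension at most `3 - a - b - 1 / c` such that for all `α > 0` outside of `E` and for ALL sets `B` with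
at least `X ^ b` elements up to `X`, for large `X`, every large natural number is `s + t + ⌊α y ^ c + g y⌋` with `s ∈ A`,
`t ∈ B`, `y ≥ 1`.

(6) Let `A` be as in (5), `c 0, ..., c r ≥ 1`, let `d 0, ..., d (j - 1)` be ARBITRARY sequences without gaps (for
instance powers of two), let the `g i` and the `h i` be ARBITRARY with `|g i y| ≤ C (y + 1) ^ (c i - 1)` and `h i` of a
smaller order than `d i`, let `b ≥ 0` and `1 - b < 2 ^ j min (1 / c r) (a + 1 / c 0 + ... + 1 / c r - 1)`. For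
successively generic `α 0, ..., α r, β 0, ..., β (j - 1)` and ALL sets `B` with at least `X ^ b` elements up to `X`, for
large `X`, every large natural number is `s + t + ∑ i, ⌊α i (y i) ^ (c i) + g i (y i)⌋ + ∑ i, ⌊β i d i (z i) + h i (z i)⌋`
with `s ∈ A`, `t ∈ B`. -/
theorem result :
    ((Dense Set.univ ∧ Dense {p : ℕ | p.Prime}) ∧
      ∀ k : ℕ, 2 ≤ k → ∀ W : Set ℕ, Dense W → ∀ c : ℝ, 1 ≤ c → c < Real.exp 1 / 2 → ∀ (g : ℕ → ℝ) (C : ℝ),
      (∀ y : ℕ, |g y| ≤ C * ((y : ℝ) + 1) ^ (c - 1)) → Gen fun α => ∀ᶠ n : ℕ in atTop, ∃ (x : Fin (2 * k) → ℕ) (y : ℕ),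
        (∀ i, x i ∈ W) ∧ 0 < y ∧ (n : ℤ) = ∑ i, (x i : ℤ) ^ k + ⌊α * (y : ℝ) ^ c + g y⌋) ∧
    (∀ k u v : ℕ, 2 ≤ k → ∀ W : Set ℕ, Dense W → ∀ c : ℝ, 1 ≤ c → ∀ (g : ℕ → ℝ) (C : ℝ),
      (∀ y : ℕ, |g y| ≤ C * ((y : ℝ) + 1) ^ (c - 1)) → ∃ E : Set ℝ,
      dimH E ≤ ENNReal.ofReal (1 + (1 - 1 / (k : ℝ)) ^ u + (1 - 1 / (k : ℝ)) ^ v - 1 / c) ∧
      ∀ α : ℝ, 0 < α → α ∉ E → ∀ᶠ n : ℕ in atTop, ∃ (x : Fin (u + v) → ℕ) (y : ℕ),
        (∀ i, x i ∈ W) ∧ 0 < y ∧ (n : ℤ) = ∑ i, (x i : ℤ) ^ k + ⌊α * (y : ℝ) ^ c + g y⌋) ∧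
    (∀ k : ℕ, 3 ≤ k → ∀ W : Set ℕ, Dense W → ∀ c : ℝ, 1 ≤ c → c ≤ 2 → ∀ (g : ℕ → ℝ) (h : Fin 2 → ℕ → ℝ) (C : ℝ),
      (∀ y : ℕ, |g y| ≤ C * ((y : ℝ) + 1) ^ (c - 1)) → (∀ i, ∀ y : ℕ, |h i y| ≤ C * ((y : ℝ) + 1) ^ (k - 1)) →
      Gen fun α => Generic 2 fun β => ∀ᶠ n : ℕ in atTop, ∃ (x : Fin (2 * k - 2) → ℕ) (y : ℕ) (z : Fin 2 → ℕ),
        (∀ i, x i ∈ W) ∧ 0 < y ∧ (∀ i, 0 < z i) ∧
          (n : ℤ) = ∑ i, (x i : ℤ) ^ k + ⌊α * (y : ℝ) ^ c + g y⌋ + ∑ i, ⌊β i * (z i : ℝ) ^ k + h i (z i)⌋) ∧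
    ((∀ k u v j r : ℕ, 2 ≤ k →
      (1 - 1 / (k : ℝ)) ^ v < 2 ^ j * min (1 / (k : ℝ)) (((r + 1 : ℕ) : ℝ) / k - (1 - 1 / (k : ℝ)) ^ u) →
      ∀ W : Set ℕ, Dense W → ∀ (h : Fin (j + r + 1) → ℕ → ℝ) (C : ℝ), (∀ i, ∀ y : ℕ, |h i y| ≤ C * ((y : ℝ) + 1) ^ (k - 1)) →
      Generic (j + r + 1) fun α => ∀ᶠ n : ℕ in atTop, ∃ (x : Fin (u + v) → ℕ) (y : Fin (j + r + 1) → ℕ),
        (∀ i, x i ∈ W) ∧ (∀ i, 0 < y i) ∧ (n : ℤ) = ∑ i, (x i : ℤ) ^ k + ∑ i, ⌊α i * (y i : ℝ) ^ k + h i (y i)⌋) ∧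
     ∀ᶠ k : ℕ in atTop, ∀ W : Set ℕ, Dense W → ∀ (h : Fin (k / 6) → ℕ → ℝ) (C : ℝ),
      (∀ i, ∀ y : ℕ, |h i y| ≤ C * ((y : ℝ) + 1) ^ (k - 1)) →
      Generic (k / 6) fun α => ∀ᶠ n : ℕ in atTop, ∃ (x : Fin (2 * k + 1 - k / 6) → ℕ) (y : Fin (k / 6) → ℕ),
        (∀ i, x i ∈ W) ∧ (∀ i, 0 < y i) ∧ (n : ℤ) = ∑ i, (x i : ℤ) ^ k + ∑ i, ⌊α i * (y i : ℝ) ^ k + h i (y i)⌋) ∧
    (∀ (A : Set ℕ) (a b c : ℝ), Many A a → 1 ≤ c → ∀ (g : ℕ → ℝ) (C : ℝ),
      (∀ y : ℕ, |g y| ≤ C * ((y : ℝ) + 1) ^ (c - 1)) → ∃ E : Set ℝ, dimH E ≤ ENNReal.ofReal (3 - a - b - 1 / c) ∧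
      ∀ α : ℝ, 0 < α → α ∉ E → ∀ B : Set ℕ, Many B b → ∀ᶠ n : ℕ in atTop, ∃ s ∈ A, ∃ t ∈ B, ∃ y : ℕ, 0 < y ∧
        (n : ℤ) = s + t + ⌊α * (y : ℝ) ^ c + g y⌋) ∧
    (∀ (A : Set ℕ) (a b C : ℝ) (r j : ℕ) (c : Fin (r + 1) → ℝ) (g : Fin (r + 1) → ℕ → ℝ) (d h : Fin j → ℕ → ℝ), Many A a → 0 ≤ b →
      (∀ i, 1 ≤ c i) → (∀ i, ∀ y : ℕ, |g i y| ≤ C * ((y : ℝ) + 1) ^ (c i - 1)) → (∀ i, NoGaps (d i)) → (∀ i, Smaller (h i) (d i)) →
      1 - b < 2 ^ j * min (1 / c (Fin.last r)) (a + ∑ i, 1 / c i - 1) →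
      Generic (r + 1) fun α => Generic j fun β => ∀ B : Set ℕ, Many B b → ∀ᶠ n : ℕ in atTop, ∃ s ∈ A, ∃ t ∈ B,
        ∃ (y : Fin (r + 1) → ℕ) (z : Fin j → ℕ), (∀ i, 0 < y i) ∧ (∀ i, 0 < z i) ∧
          (n : ℤ) = s + t + ∑ i, ⌊α i * (y i : ℝ) ^ c i + g i (y i)⌋ + ∑ i, ⌊β i * d i (z i) + h i (z i)⌋) := by
  refine ⟨⟨⟨fun ω hω => Pool.Agent.H96.WG.Thick.mono Pool.Agent.H96.WG.thick_univ hω.le,
    fun ω hω => Pool.Agent.H96.WG.thick_primes ω hω⟩, ?_⟩, ?_, ?_, ⟨?_, ?_⟩, ?_, ?_⟩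
  · intro k hk W hW c hc hce g C hg
    obtain ⟨E, hE1, hE2⟩ := Pool.Agent.H96.WG.two_sided k k k hk W hW c hc g C hg
    have hk0 : (0 : ℝ) < k := by exact_mod_cast (by omega : 0 < k)
    have hq := Pool.Agent.H96.WG.q_pos k hk
    have h1 : (1 - 1 / (k : ℝ)) ^ k ≤ Real.exp (-1) := by
      have h3 : 1 - 1 / (k : ℝ) ≤ Real.exp (-(1 / (k : ℝ))) := by
        have := Real.add_one_le_exp (-(1 / (k : ℝ)))
        linarith
      calc (1 - 1 / (k : ℝ)) ^ k ≤ Real.exp (-(1 / (k : ℝ))) ^ k := pow_le_pow_left₀ hq.1.le h3 _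
        _ = Real.exp (-1) := by
            rw [← Real.exp_nat_mul]
            congr 1
            field_simp
    have h2 : 2 * Real.exp (-1) < 1 / c := by
      rw [Real.exp_neg, lt_div_iff₀ (by linarith), mul_comm, ← mul_assoc, ← div_eq_mul_inv, div_lt_one (Real.exp_pos 1)]
      linarith
    refine ⟨E, lt_of_le_of_lt hE1 ?_, fun α hα hαE => ?_⟩
    · rw [← ENNReal.ofReal_one]
      exact (ENNReal.ofReal_lt_ofReal_iff one_pos).2 (by linarith)
    · rw [two_mul k]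
      exact hE2 α hα hαE
  · intro k u v hk W hW c hc g C hg
    exact Pool.Agent.H96.WG.two_sided k u v hk W hW c hc g C hg
  · intro k hk W hW c hc hc2 g h C hg hh
    have hq := Pool.Agent.H96.WG.quarter k hk
    have hc0 : 0 < c := by linarith
    have hci : 1 / 2 ≤ 1 / c := one_div_le_one_div_of_le hc0 hc2
    have h1 := Pool.Agent.H96.WG.powers k (2 * k - 2) 0 (by omega) W hW 0 (fun _ => c) (fun _ => hc) (fun _ => g) C (fun _ => hg) 2
      (fun _ (y : ℕ) => (y : ℝ) ^ k) h (fun _ => Pool.Agent.H96.WG.noGaps_pow k (by omega))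
      (fun i => Pool.Agent.H96.WG.smaller_pow k (by omega) (h i) C (hh i)) (by
        rw [Fin.sum_univ_one, pow_zero]
        have h5 := Pool.Agent.H96.WG.q_pos k (by omega)
        have h6 : 0 < (1 - 1 / (k : ℝ)) ^ (2 * k - 2) := pow_pos h5.1 _
        have h7 : 1 / 4 < min (1 / c) (1 / c - (1 - 1 / (k : ℝ)) ^ (2 * k - 2)) := lt_min (by linarith) (by linarith)
        linarith)
    obtain ⟨E, hE, h2⟩ := h1
    refine ⟨E, hE, fun α hα hαE => ?_⟩
    have h4 : Pool.Agent.H96.WG.Generic 2 (fun β => ∀ᶠ n : ℕ in atTop, ∃ (x : Fin (2 * k - 2 + 0) → ℕ) (y : Fin (0 + 1) → ℕ) (z : Fin 2 → ℕ),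
        (∀ i, x i ∈ W) ∧ (∀ i, 0 < y i) ∧ (∀ i, 0 < z i) ∧ (n : ℤ) = ∑ i, (x i : ℤ) ^ k +
          ∑ i, ⌊(Fin.cons α Fin.elim0 : Fin (0 + 1) → ℝ) i * (y i : ℝ) ^ c + g (y i)⌋ + ∑ i, ⌊β i * (z i : ℝ) ^ k + h i (z i)⌋) :=
      h2 α hα hαE
    refine of_generic 2 (Pool.Agent.H96.WG.Generic.mono 2 (fun β hβ => ?_) h4)
    filter_upwards [hβ] with n hn
    obtain ⟨x, y, z, hx, hy, hz, h3⟩ := hn
    refine ⟨x, y 0, z, hx, hy 0, hz, ?_⟩
    rw [h3, Fin.sum_univ_one]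
    rfl
  · intro k u v j r hk hq W hW h C hh
    exact of_generic _ (Pool.Agent.H96.WG.powers_uniform k u v hk W hW C j r _ rfl h hh hq)
  · filter_upwards [Pool.Agent.H96.WG.large, eventually_ge_atTop 2] with k hk hk2 W hW h C hh
    obtain ⟨j, r, h1, h2⟩ := hk
    have h3 := Pool.Agent.H96.WG.powers_uniform k (2 * k + 1 - k / 6) 0 hk2 W hW C j r _ h1 h hh (by rw [pow_zero]; exact h2)
    exact of_generic _ h3
  · intro A a b c hA hc g C hg
    obtain ⟨E, hE1, hE2⟩ := Pool.Agent.H96.WG.one_term A a b c hc hA g C hg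
    refine ⟨E, hE1, fun α hα hαE B hB => ?_⟩
    filter_upwards [hE2 α hα hαE B hB] with n hn
    obtain ⟨t, ht, m, ⟨s, hs, y, hy, hm⟩, rfl⟩ := hn
    refine ⟨s, hs, t, ht, y, hy, ?_⟩
    push_cast
    rw [hm]
    ring
  · intro A a b C r j c g d h hA hb hc hg hd hh hab
    have h1 := Pool.Agent.H96.WG.general A a hA r c hc g C hg j d h hd hh b hb hab
    refine of_generic _ (Pool.Agent.H96.WG.Generic.mono _ (fun α hα => of_generic _ hα) h1)

end Pool.Agent.Results.MP_efcac8_nt.OneGenericTerm
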